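import Pool.Agent.X109.HU.Main

/-!
# Hereditarily hypercyclic operators on countable direct sums of Banach spaces
-/

namespace Pool.Agent.Results.MP_1b62a1_an.DirectSumHereditary

open Pool.Agent.X109.HU Topology

universe u

/-- For every sequence `X n` of separable infinite-dimensional Banach spaces over `𝕜 = ℝ` or `ℂ`,
the locally convex direct sum of the `X n` (the algebraic direct sum with the finest locally convex
topology making the inclusions continuous, which induces the norm topology on each `X n`) carries a
hereditarily hypercyclic continuous linear operator. -/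
theorem result (𝕜 : Type) [RCLike 𝕜] (X : ℕ → Type u) [∀ n, NormedAddCommGroup (X n)]
    [∀ n, NormedSpace ℝ (X n)] [∀ n, NormedSpace 𝕜 (X n)] [∀ n, IsScalarTower ℝ 𝕜 (X n)]
    [∀ n, CompleteSpace (X n)] [∀ n, TopologicalSpace.SeparableSpace (X n)]
    (hinf : ∀ n, ¬ FiniteDimensional 𝕜 (X n)) :
    (∀ n, IsEmbedding (incl 𝕜 X n)) ∧
      ∃ T : LCSum 𝕜 X →L[𝕜] LCSum 𝕜 X, HereditarilyHypercyclic T :=
  ⟨fun n => isEmbedding_incl n, main hinf⟩

end Pool.Agent.Results.MP_1b62a1_an.DirectSumHereditary
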